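import Mathlib
import Pool.Agent.V11326.AlohaIneq

open Filter MeasureTheory
open scoped ENNReal NNReal Topology

set_option linter.deprecated false

namespace Pool.Agent.Results.MP_b612d4_pr.NoiseBeatsDrift

/-! ### Definitions used in the statement -/

/-- The class `H` of functions on `[1, ∞)`. -/
structure InH (h : ℝ → ℝ) : Prop where
  nonneg : ∀ x, 1 ≤ x → 0 ≤ h x
  one : h 1 = 0
  mono : ∀ x y, 1 ≤ x → x ≤ y → h x ≤ h y
  tendsto : Tendsto h atTop atTop
  sub_mono : ∀ x y, 1 ≤ x → x ≤ y → x - h x ≤ y - h y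
  sub_tendsto : Tendsto (fun x => x - h x) atTop atTop
  div_tendsto : Tendsto (fun x => h x / x) atTop (𝓝 0)

/-- The class `E_h` of functions on `[1, ∞)` with values in `(0, 1/2]`. -/
structure InE (h ε : ℝ → ℝ) : Prop where
  pos : ∀ x, 1 ≤ x → 0 < ε x
  le_half : ∀ x, 1 ≤ x → ε x ≤ 1 / 2
  tendsto : Tendsto ε atTop (𝓝 0)
  mul_tendsto : Tendsto (fun x => h x * ε x ^ 2) atTop atTop

/-- The transmission probability `p_n` when `S_n = S` and `I_n = I` (`true` stands for `1`);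
for `S ≥ 1` the truncation at `1` has no effect. -/
noncomputable def sendProb (ε : ℝ → ℝ) (S : ℝ) (I : Bool) : ℝ≥0 :=
  min 1 (Real.toNNReal (if I then 1 / S else (1 - ε S) / S))

/-- One step of the chain from `x = (N, S)`: draw the fair bit `I`, the number `B` of messages sent
(binomial), the number `ξ` of arrivals; with `J = 1` if `B = 1` and `J = 0` otherwise, the new state
is `(N - J + ξ, S')`, where `S'` is `S + C`, `S + h S` or `max (S - h S) 1` if, respectively,
`J = 0`, or `J = 1` and `I = 0`, or `J = 1` and `I = 1`. -/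
noncomputable def step (C : ℝ) (h ε : ℝ → ℝ) (arr : PMF ℕ) (x : ℕ × ℝ) : PMF (ℕ × ℝ) :=
  (PMF.uniformOfFintype Bool).bind fun I =>
    (PMF.binomial (sendProb ε x.2 I) (min_le_left _ _) x.1).bind fun B =>
      arr.bind fun ξ =>
        PMF.pure (x.1 - (if (B : ℕ) = 1 then 1 else 0) + ξ,
          if (B : ℕ) = 1 then (if I then max (x.2 - h x.2) 1 else x.2 + h x.2) else x.2 + C)

/-- The law of `(N, S)` after `n` steps, started from `x`. -/
noncomputable def law (C : ℝ) (h ε : ℝ → ℝ) (arr : PMF ℕ) : ℕ → ℕ × ℝ → PMF (ℕ × ℝ)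
  | 0, x => PMF.pure x
  | n + 1, x => (law C h ε arr n x).bind (step C h ε arr)

/-- Harris ergodicity: convergence in total variation to one probability measure from every initial
value `(N_1, S_1)` with `S_1 ≥ 1`. -/
def Stable (C : ℝ) (h ε : ℝ → ℝ) (arr : PMF ℕ) : Prop :=
  ∃ μ : Measure (ℕ × ℝ), IsProbabilityMeasure μ ∧ ∀ x : ℕ × ℝ, 1 ≤ x.2 → ∀ η : ℝ, 0 < η →
    ∀ᶠ n in atTop, ∀ A : Set (ℕ × ℝ), MeasurableSet A →
      |((law C h ε arr n x).toMeasure A).toReal - (μ A).toReal| ≤ η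

open Pool.Agent.V11326.Aloha

/-! ### expectations -/

section expectation

variable {α β : Type*}

noncomputable def ex (p : PMF α) (F : α → ℝ≥0∞) : ℝ≥0∞ := ∑' a, p a * F a

theorem ex_pure (a : α) (F : α → ℝ≥0∞) : ex (PMF.pure a) F = F a := by
  classical
  unfold ex
  rw [tsum_eq_single a]
  · simp
  · intro b hb
    simp [PMF.pure_apply, hb]

theorem ex_bind (p : PMF α) (f : α → PMF β) (F : β → ℝ≥0∞) :
    ex (p.bind f) F = ex p (fun a => ex (f a) F) := by
  unfold ex
  calc ∑' b, (p.bind f) b * F b = ∑' b, ∑' a, p a * f a b * F b := by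
        refine tsum_congr (fun b => ?_)
        rw [PMF.bind_apply, ENNReal.tsum_mul_right]
    _ = ∑' a, ∑' b, p a * f a b * F b := ENNReal.tsum_comm
    _ = ∑' a, p a * ∑' b, f a b * F b := by
        refine tsum_congr (fun a => ?_)
        rw [← ENNReal.tsum_mul_left]
        exact tsum_congr (fun b => mul_assoc _ _ _)

theorem ex_mono (p : PMF α) {F G : α → ℝ≥0∞} (h : ∀ a, F a ≤ G a) : ex p F ≤ ex p G :=
  ENNReal.tsum_le_tsum (fun a => mul_le_mul_right (h a) _)

theorem ex_const (p : PMF α) (c : ℝ≥0∞) : ex p (fun _ => c) = c := by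
  unfold ex
  rw [ENNReal.tsum_mul_right, p.tsum_coe, one_mul]

theorem ex_two (p : PMF α) (a : α) (F : α → ℝ≥0∞) (c1 c2 : ℝ≥0∞) (h1 : F a ≤ c1)
    (h2 : ∀ b, b ≠ a → F b ≤ c2) : ex p F ≤ p a * c1 + (1 - p a) * c2 := by
  classical
  unfold ex
  rw [ENNReal.tsum_eq_add_tsum_ite a]
  have h3 : ∑' b, (if b = a then 0 else p b) = 1 - p a := by
    have h4 := p.tsum_coe
    rw [ENNReal.tsum_eq_add_tsum_ite a] at h4
    rw [← h4, ENNReal.add_sub_cancel_left (PMF.apply_ne_top p a)]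
  refine add_le_add (mul_le_mul_right h1 _) ?_
  rw [← h3, ← ENNReal.tsum_mul_right]
  refine ENNReal.tsum_le_tsum (fun b => ?_)
  split_ifs with hb
  · simp
  · exact mul_le_mul_right (h2 b hb) _

end expectation

theorem ex_bool (F : Bool → ℝ≥0∞) :
    ex (PMF.uniformOfFintype Bool) F = 2⁻¹ * F true + 2⁻¹ * F false := by
  unfold ex
  rw [tsum_bool]
  simp [PMF.uniformOfFintype_apply, add_comm]

theorem binomial_one (N : ℕ) (w : ℝ≥0) (hw : w ≤ 1) (b : Fin (N + 1))
    (hb : (b : ℕ) = 1) : PMF.binomial w hw N b = ENNReal.ofReal (qf N w) := by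
  have hw' : (w : ℝ) ≤ 1 := by exact_mod_cast hw
  have eq1 : 1 - (w : ℝ≥0∞) = ENNReal.ofReal (1 - w : ℝ) := by norm_cast
  have h0 : (0 : ℝ) ≤ 1 - w := by linarith
  rw [PMF.binomial_apply, hb, eq1]
  unfold qf
  rw [ENNReal.ofReal_mul (by positivity), ENNReal.ofReal_mul (by positivity),
    ENNReal.ofReal_pow h0, ENNReal.ofReal_natCast, ENNReal.ofReal_coe_nnreal,
    Nat.choose_one_right, pow_one, Fin.val_last]
  ring

theorem ofReal_mix (q x y : ℝ) (hq0 : 0 ≤ q) (hq1 : q ≤ 1) (hx : 0 ≤ x) (hy : 0 ≤ y) :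
    ENNReal.ofReal q * ENNReal.ofReal x + (1 - ENNReal.ofReal q) * ENNReal.ofReal y =
      ENNReal.ofReal (q * x + (1 - q) * y) := by
  have h1 : 1 - ENNReal.ofReal q = ENNReal.ofReal (1 - q) := by
    rw [ENNReal.ofReal_sub _ hq0, ENNReal.ofReal_one]
  have h0 : 0 ≤ 1 - q := by linarith
  rw [h1, ← ENNReal.ofReal_mul hq0, ← ENNReal.ofReal_mul h0,
    ← ENNReal.ofReal_add (by positivity) (by positivity)]

/-- the truncated Lyapunov function -/
noncomputable def WW (R : ℝ) (M : ℕ) (x : ℕ × ℝ) : ℝ≥0∞ :=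
  open Classical in
  if x.1 < M ∨ x.2 < 1 then ENNReal.ofReal (1 / M)
  else min (ENNReal.ofReal (1 / M)) (ENNReal.ofReal (VV R x.1 x.2))

theorem WW_le_c (R : ℝ) (M : ℕ) (x : ℕ × ℝ) : WW R M x ≤ ENNReal.ofReal (1 / M) := by
  unfold WW
  split_ifs
  · exact le_rfl
  · exact min_le_left _ _

theorem WW_le_V (R : ℝ) (M : ℕ) (hM : 2 ≤ M) (N : ℕ) (S : ℝ) (hN : M - 1 ≤ N) (hS : 1 ≤ S) :
    WW R M (N, S) ≤ ENNReal.ofReal (VV R N S) := by
  unfold WW
  split_ifs with h
  · rcases h with h | h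
    · apply ENNReal.ofReal_le_ofReal
      have hN' : N = M - 1 := by
        have : N < M := h
        omega
      have hN1 : 1 ≤ N := by omega
      have h1 : (0 : ℝ) < N := by exact_mod_cast hN1
      have h2 : (N : ℝ) ≤ M := by
        have : N < M := h
        exact_mod_cast this.le
      unfold VV
      have h3 := GG_nonneg R S
      have h4 : 0 ≤ GG R S / (N : ℝ) ^ 2 := by positivity
      have h5 : 1 / (M : ℝ) ≤ 1 / N := one_div_le_one_div_of_le h1 h2
      linarith
    · exact absurd hS (not_le.2 h)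
  · exact min_le_right _ _

/-- average over the arrivals -/
theorem arr_avg (arr : PMF ℕ) (R : ℝ) (M : ℕ) (hM : 2 ≤ M) (K : ℕ) (S : ℝ) (hK : M - 1 ≤ K)
    (hS : 1 ≤ S) :
    ex arr (fun ξ => WW R M (K + ξ, S)) ≤
      ENNReal.ofReal ((1 - (arr 0).toReal) * VV R (K + 1) S + (arr 0).toReal * VV R K S) := by
  have h := ex_two arr 0 (fun ξ => WW R M (K + ξ, S)) (ENNReal.ofReal (VV R K S))
    (ENNReal.ofReal (VV R (K + 1) S)) (WW_le_V R M hM K S hK hS) (by
      intro ξ hξ
      refine (WW_le_V R M hM (K + ξ) S (by omega) hS).trans ?_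
      apply ENNReal.ofReal_le_ofReal
      exact VV_anti R (by omega) (by omega) S)
  refine h.trans (le_of_eq ?_)
  have h0 : arr 0 ≠ ⊤ := PMF.apply_ne_top arr 0
  have h1 : (arr 0).toReal ≤ 1 := by
    have := ENNReal.toReal_mono ENNReal.one_ne_top (PMF.coe_le_one arr 0)
    simpa using this
  conv_lhs => rw [← ENNReal.ofReal_toReal h0]
  rw [ofReal_mix _ _ _ ENNReal.toReal_nonneg h1 (VV_nonneg _ _ _) (VV_nonneg _ _ _)]
  congr 1
  ring

theorem sendProb_coe (S : ℝ) (hS : 1 ≤ S) (I : Bool) :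
    ((sendProb ee S I : ℝ≥0) : ℝ) = if I then 1 / S else (1 - ee S) * (1 / S) := by
  obtain ⟨r, hr1, hSr, hhr, her⟩ := root8 S hS
  have hS0 : 0 < S := by linarith
  have hr0 : 0 < r := by linarith
  have hu0 : 0 ≤ 1 / S := by positivity
  have hu1 : 1 / S ≤ 1 := by rw [div_le_one hS0]; exact hS
  have he0 : 0 ≤ ee S := by rw [her]; positivity
  have he1 : ee S ≤ 1 / 2 := by
    rw [her]
    apply one_div_le_one_div_of_le (by norm_num)
    nlinarith
  unfold sendProb
  rw [NNReal.coe_min, NNReal.coe_one]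
  cases I with
  | true =>
    simp only [if_true]
    rw [Real.coe_toNNReal _ hu0, min_eq_right hu1]
  | false =>
    have e : (1 - ee S) / S = (1 - ee S) * (1 / S) := by ring
    have h0 : 0 ≤ (1 - ee S) * (1 / S) := mul_nonneg (by linarith) hu0
    have h1 : (1 - ee S) * (1 / S) ≤ 1 := by nlinarith
    simp only [Bool.false_eq_true, if_false]
    rw [e, Real.coe_toNNReal _ h0, min_eq_right h1]

/-- conditional expectation given the bit `I` -/
theorem bit_avg (C : ℝ) (hC : 0 < C) (arr : PMF ℕ) (R : ℝ) (M : ℕ) (hM : 2 ≤ M) (N : ℕ) (S : ℝ)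
    (hN : M ≤ N) (hS : 1 ≤ S) (I : Bool) (T : ℝ) (hT : 1 ≤ T)
    (hTdef : (if I then max (S - hh S) 1 else S + hh S) = T) :
    ex ((PMF.binomial (sendProb ee S I) (min_le_left _ _) N).bind fun B =>
      arr.bind fun ξ => PMF.pure (N - (if (B : ℕ) = 1 then 1 else 0) + ξ,
        if (B : ℕ) = 1 then (if I then max (S - hh S) 1 else S + hh S) else S + C)) (WW R M) ≤
    ENNReal.ofReal (qf N (sendProb ee S I) *
        ((1 - (arr 0).toReal) * VV R N T + (arr 0).toReal * VV R (N - 1) T)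
      + (1 - qf N (sendProb ee S I)) *
        ((1 - (arr 0).toReal) * VV R (N + 1) (S + C) + (arr 0).toReal * VV R N (S + C))) := by
  have h1 : (arr 0).toReal ≤ 1 := by
    have := ENNReal.toReal_mono ENNReal.one_ne_top (PMF.coe_le_one arr 0)
    simpa using this
  have h0 : 0 ≤ (arr 0).toReal := ENNReal.toReal_nonneg
  have hw0 : (0 : ℝ) ≤ sendProb ee S I := NNReal.coe_nonneg _
  have hw1 : ((sendProb ee S I : ℝ≥0) : ℝ) ≤ 1 := by
    have : sendProb ee S I ≤ 1 := min_le_left _ _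
    exact_mod_cast this
  have hq0 := qf_nonneg N _ hw0 hw1
  have hq1 := qf_le_one N _ hw0 hw1
  rw [ex_bind]
  let b1 : Fin (N + 1) := ⟨1, by omega⟩
  have hb1 : (b1 : ℕ) = 1 := rfl
  have h := ex_two (PMF.binomial (sendProb ee S I) (min_le_left _ _) N) b1
    (fun B => ex (arr.bind fun ξ => PMF.pure (N - (if (B : ℕ) = 1 then 1 else 0) + ξ,
        if (B : ℕ) = 1 then (if I then max (S - hh S) 1 else S + hh S) else S + C)) (WW R M))
    (ENNReal.ofReal ((1 - (arr 0).toReal) * VV R N T + (arr 0).toReal * VV R (N - 1) T))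
    (ENNReal.ofReal ((1 - (arr 0).toReal) * VV R (N + 1) (S + C) +
      (arr 0).toReal * VV R N (S + C))) ?_ ?_
  · refine h.trans (le_of_eq ?_)
    rw [binomial_one N _ _ b1 hb1]
    exact ofReal_mix _ _ _ hq0 hq1
      (add_nonneg (mul_nonneg (by linarith) (VV_nonneg _ _ _)) (mul_nonneg h0 (VV_nonneg _ _ _)))
      (add_nonneg (mul_nonneg (by linarith) (VV_nonneg _ _ _)) (mul_nonneg h0 (VV_nonneg _ _ _)))
  · simp only [hb1, if_true]
    rw [ex_bind, hTdef]
    simp only [ex_pure]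
    have := arr_avg arr R M hM (N - 1) T (by omega) hT
    have e : N - 1 + 1 = N := by omega
    rwa [e] at this
  · intro B hB
    have hB1 : (B : ℕ) ≠ 1 := fun hcon => hB (Fin.ext (by rw [hcon, hb1]))
    simp only [hB1, if_false, Nat.sub_zero]
    rw [ex_bind]
    simp only [ex_pure]
    exact arr_avg arr R M hM N (S + C) (by omega) (by linarith)

/-- one-step supermartingale inequality -/
theorem step_le (C : ℝ) (hC : 0 < C) (arr : PMF ℕ) (harr : arr 0 ≠ 1) :
    ∃ R : ℝ, 0 < R ∧ ∃ M0 : ℕ, 2 ≤ M0 ∧ ∀ M : ℕ, M0 ≤ M → ∀ x : ℕ × ℝ,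
      ex (step C hh ee arr x) (WW R M) ≤ WW R M x := by
  have h0 : arr 0 ≠ ⊤ := PMF.apply_ne_top arr 0
  have h1 : (arr 0).toReal < 1 := by
    have h2 : arr 0 < 1 := lt_of_le_of_ne (PMF.coe_le_one arr 0) harr
    have := (ENNReal.toReal_lt_toReal h0 ENNReal.one_ne_top).2 h2
    simpa using this
  set p := 1 - (arr 0).toReal with hp
  have hp0 : 0 < p := by rw [hp]; linarith
  have hp1 : p ≤ 1 := by
    have : 0 ≤ (arr 0).toReal := ENNReal.toReal_nonneg
    rw [hp]; linarith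
  have hp' : (arr 0).toReal = 1 - p := by rw [hp]; ring
  obtain ⟨R, hR, N0, hN0, hmain⟩ := exists_consts C p hC hp0 hp1
  refine ⟨R, hR, N0, hN0, fun M hM x => ?_⟩
  obtain ⟨N, S⟩ := x
  have hle : ex (step C hh ee arr (N, S)) (WW R M) ≤ ENNReal.ofReal (1 / M) :=
    (ex_mono _ (fun y => WW_le_c R M y)).trans (ex_const _ _).le
  by_cases hbad : N < M ∨ S < 1
  · have : WW R M (N, S) = ENNReal.ofReal (1 / M) := by
      unfold WW
      rw [if_pos hbad]
    rw [this]
    exact hle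
  · have hgood : WW R M (N, S) = min (ENNReal.ofReal (1 / M)) (ENNReal.ofReal (VV R N S)) := by
      unfold WW
      rw [if_neg hbad]
    rw [hgood]
    refine le_min hle ?_
    push Not at hbad
    obtain ⟨hNM, hS⟩ := hbad
    have hS0 : 0 < S := by linarith
    obtain ⟨r, hr1, hSr, hhr, her⟩ := root8 S hS
    have hh0 : 0 ≤ hh S := by
      rw [hhr]
      have := one_le_pow₀ hr1 (n := 7)
      linarith
    have hSh : 1 ≤ S - hh S := by
      rw [hhr, hSr]
      have : r ^ 7 * 1 ≤ r ^ 7 * r := mul_le_mul_of_nonneg_left hr1 (by positivity)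
      nlinarith
    obtain ⟨hm1, hm2⟩ := hmain N (hM.trans hNM) S hS
    have hM2 : 2 ≤ M := hN0.trans hM
    have hb1 := bit_avg C hC arr R M hM2 N S hNM hS true (S - hh S) hSh (by
      simp only [if_true]
      exact max_eq_left hSh)
    have hb0 := bit_avg C hC arr R M hM2 N S hNM hS false (S + hh S) (by linarith) (by simp)
    have hw1 := sendProb_coe S hS true
    have hw0 := sendProb_coe S hS false
    simp only [if_true] at hw1
    simp only [Bool.false_eq_true, if_false] at hw0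
    rw [hw1] at hb1
    rw [hw0] at hb0
    have hu0 : 0 ≤ 1 / S := by positivity
    have hu1 : 1 / S ≤ 1 := by rw [div_le_one hS0]; exact hS
    have he0 : 0 ≤ ee S := by rw [her]; positivity
    have he1 : ee S ≤ 1 / 2 := by
      rw [her]
      apply one_div_le_one_div_of_le (by norm_num)
      nlinarith
    have hv0 : 0 ≤ (1 - ee S) * (1 / S) := mul_nonneg (by linarith) hu0
    have hv1 : (1 - ee S) * (1 / S) ≤ 1 := by nlinarith
    have hN2 : 2 ≤ N := hM2.trans hNM
    have hn2 : (2 : ℝ) ≤ N := by exact_mod_cast hN2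
    have hcast : ((N - 1 : ℕ) : ℝ) = N - 1 := by
      rw [Nat.cast_sub (by omega)]
      simp
    have key := assemble N p (qf N ((1 - ee S) * (1 / S))) (qf N (1 / S)) (GG R (S + C))
      (GG R (S + hh S)) (GG R (S - hh S)) (GG R S) hn2 hp0.le hp1 (qf_nonneg _ _ hv0 hv1)
      (qf_le_one _ _ hv0 hv1) (qf_nonneg _ _ hu0 hu1) (qf_le_one _ _ hu0 hu1) (GG_nonneg _ _)
      (GG_nonneg _ _) (GG_mono R (by linarith)) hm1 hm2
    have hstep : ex (step C hh ee arr (N, S)) (WW R M) ≤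
        2⁻¹ * ENNReal.ofReal (qf N (1 / S) *
          ((1 - (arr 0).toReal) * VV R N (S - hh S) + (arr 0).toReal * VV R (N - 1) (S - hh S))
          + (1 - qf N (1 / S)) *
          ((1 - (arr 0).toReal) * VV R (N + 1) (S + C) + (arr 0).toReal * VV R N (S + C))) +
        2⁻¹ * ENNReal.ofReal (qf N ((1 - ee S) * (1 / S)) *
          ((1 - (arr 0).toReal) * VV R N (S + hh S) + (arr 0).toReal * VV R (N - 1) (S + hh S))
          + (1 - qf N ((1 - ee S) * (1 / S))) *
          ((1 - (arr 0).toReal) * VV R (N + 1) (S + C) + (arr 0).toReal * VV R N (S + C))) := by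
      unfold step
      rw [ex_bind, ex_bool]
      exact add_le_add (mul_le_mul_right hb1 _) (mul_le_mul_right hb0 _)
    refine hstep.trans ?_
    rw [hp']
    have e : (1 : ℝ) - (1 - p) = p := by ring
    rw [e]
    have hhalf : (2⁻¹ : ℝ≥0∞) = ENNReal.ofReal (1 / 2) := by
      rw [one_div, ENNReal.ofReal_inv_of_pos (by norm_num)]
      norm_num
    have hp1' : 0 ≤ 1 - p := by linarith
    have g1 : ∀ q : ℝ, 0 ≤ q → q ≤ 1 → ∀ T : ℝ, 0 ≤ q * (p * VV R N T + (1 - p) * VV R (N - 1) T)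
          + (1 - q) * (p * VV R (N + 1) (S + C) + (1 - p) * VV R N (S + C)) := by
      intro q hq hq1 T
      have a1 := VV_nonneg R N T
      have a2 := VV_nonneg R (N - 1) T
      have a3 := VV_nonneg R (N + 1) (S + C)
      have a4 := VV_nonneg R N (S + C)
      have a5 : 0 ≤ 1 - q := by linarith
      positivity
    rw [hhalf, ← ENNReal.ofReal_mul (by norm_num), ← ENNReal.ofReal_mul (by norm_num),
      ← ENNReal.ofReal_add]
    · apply ENNReal.ofReal_le_ofReal
      unfold VV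
      rw [hcast]
      push_cast
      exact key
    · exact mul_nonneg (by norm_num) (g1 _ (qf_nonneg _ _ hu0 hu1) (qf_le_one _ _ hu0 hu1) _)
    · exact mul_nonneg (by norm_num) (g1 _ (qf_nonneg _ _ hv0 hv1) (qf_le_one _ _ hv0 hv1) _)

theorem law_le (C : ℝ) (h ε : ℝ → ℝ) (arr : PMF ℕ) (F : ℕ × ℝ → ℝ≥0∞)
    (hF : ∀ x, ex (step C h ε arr x) F ≤ F x) (n : ℕ) (x : ℕ × ℝ) :
    ex (law C h ε arr n x) F ≤ F x := by
  induction n with
  | zero => exact (ex_pure x F).le
  | succ n ih =>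
    rw [law, ex_bind]
    exact (ex_mono _ hF).trans ih

/-- the probability of a small population is small at all times -/
theorem small_prob (C : ℝ) (hC : 0 < C) (arr : PMF ℕ) (harr : arr 0 ≠ 1) :
    ∃ R : ℝ, 0 < R ∧ ∃ M0 : ℕ, 2 ≤ M0 ∧ ∀ M : ℕ, M0 ≤ M → ∀ (x : ℕ × ℝ) (n : ℕ), M ≤ x.1 →
      1 ≤ x.2 → ((law C hh ee arr n x).toMeasure {y | y.1 < M}).toReal ≤ M * VV R x.1 x.2 := by
  obtain ⟨R, hR, M0, hM0, hstep⟩ := step_le C hC arr harr
  refine ⟨R, hR, M0, hM0, fun M hM x n hxM hx1 => ?_⟩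
  have hMpos : (0 : ℝ) < M := by
    have : 0 < M := by omega
    exact_mod_cast this
  have h1 := law_le C hh ee arr (WW R M) (hstep M hM) n x
  have h2 : WW R M x ≤ ENNReal.ofReal (VV R x.1 x.2) :=
    WW_le_V R M (hM0.trans hM) x.1 x.2 (by omega) hx1
  have hms : MeasurableSet {y : ℕ × ℝ | y.1 < M} :=
    measurable_fst (measurableSet_Iio : MeasurableSet (Set.Iio M))
  have h3 : ENNReal.ofReal (1 / M) * (law C hh ee arr n x).toMeasure {y | y.1 < M} ≤
      ex (law C hh ee arr n x) (WW R M) := by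
    rw [PMF.toMeasure_apply _ hms]
    unfold ex
    rw [← ENNReal.tsum_mul_left]
    refine ENNReal.tsum_le_tsum (fun y => ?_)
    by_cases hy : y.1 < M
    · rw [Set.indicator_of_mem (show y ∈ {y : ℕ × ℝ | y.1 < M} from hy)]
      have : WW R M y = ENNReal.ofReal (1 / M) := by
        unfold WW
        rw [if_pos (Or.inl hy)]
      rw [this, mul_comm]
    · rw [Set.indicator_of_notMem (show y ∉ {y : ℕ × ℝ | y.1 < M} from hy)]
      simp
  have h4 := h3.trans (h1.trans h2)
  have h5 : (law C hh ee arr n x).toMeasure {y | y.1 < M} ≠ ⊤ := measure_ne_top _ _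
  have h6 := ENNReal.toReal_mono ENNReal.ofReal_ne_top h4
  rw [ENNReal.toReal_mul, ENNReal.toReal_ofReal (by positivity),
    ENNReal.toReal_ofReal (VV_nonneg _ _ _)] at h6
  rw [one_div, inv_mul_le_iff₀ hMpos] at h6
  exact h6

theorem VV_tendsto (R S : ℝ) : Tendsto (fun N : ℕ => VV R N S) atTop (𝓝 0) := by
  unfold VV
  have h1 : Tendsto (fun N : ℕ => 1 / (N : ℝ)) atTop (𝓝 0) := tendsto_one_div_atTop_nhds_zero_nat
  have h2 : Tendsto (fun N : ℕ => GG R S / (N : ℝ) ^ 2) atTop (𝓝 0) := by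
    have h3 : Tendsto (fun N : ℕ => (N : ℝ) ^ 2) atTop atTop :=
      (tendsto_pow_atTop (by norm_num)).comp tendsto_natCast_atTop_atTop
    exact h3.const_div_atTop _
  simpa using h1.add h2

/-- from a large initial number of messages, the number of messages stays large -/
theorem stays_large (C : ℝ) (hC : 0 < C) (arr : PMF ℕ) (harr : arr 0 ≠ 1) (M : ℕ) (S : ℝ)
    (hS : 1 ≤ S) (η : ℝ) (hη : 0 < η) : ∃ N1 : ℕ, ∀ N : ℕ, N1 ≤ N → ∀ n : ℕ,
      ((law C hh ee arr n (N, S)).toMeasure {y | y.1 < M}).toReal ≤ η := by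
  obtain ⟨R, hR, M0, hM0, hsm⟩ := small_prob C hC arr harr
  have hlim := (VV_tendsto R S).const_mul ((max M M0 : ℕ) : ℝ)
  rw [mul_zero] at hlim
  obtain ⟨N1, hN1⟩ := eventually_atTop.1 (hlim.eventually_le_const hη)
  refine ⟨max N1 (max M M0), fun N hN n => ?_⟩
  have h1 := hsm (max M M0) (le_max_right _ _) (N, S) n ((le_max_right _ _).trans hN) hS
  have h2 := hN1 N ((le_max_left _ _).trans hN)
  refine le_trans ?_ (h1.trans h2)
  apply ENNReal.toReal_mono (measure_ne_top _ _)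
  apply measure_mono
  intro y hy
  have hy' : y.1 < M := hy
  change y.1 < max M M0
  exact lt_of_lt_of_le hy' (le_max_left _ _)

theorem not_stable (C : ℝ) (hC : 0 < C) (arr : PMF ℕ) (harr : arr 0 ≠ 1) :
    ¬ Stable C hh ee arr := by
  rintro ⟨μ, hμ, hconv⟩
  have hzero : ∀ M : ℕ, μ {y : ℕ × ℝ | y.1 < M} = 0 := by
    intro M
    have hms : MeasurableSet {y : ℕ × ℝ | y.1 < M} :=
      measurable_fst (measurableSet_Iio : MeasurableSet (Set.Iio M))
    have hreal : (μ {y : ℕ × ℝ | y.1 < M}).toReal ≤ 0 := by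
      refine le_of_forall_pos_le_add (fun η hη => ?_)
      obtain ⟨N1, hN1⟩ := stays_large C hC arr harr M 1 le_rfl (η / 2) (by positivity)
      obtain ⟨n0, hn0⟩ := eventually_atTop.1 (hconv (N1, 1) le_rfl (η / 2) (by positivity))
      have h1 := hn0 n0 le_rfl _ hms
      have h2 := hN1 N1 le_rfl n0
      have h3 := (abs_le.1 h1).1
      linarith
    have h0 : (μ {y : ℕ × ℝ | y.1 < M}).toReal = 0 := le_antisymm hreal ENNReal.toReal_nonneg
    exact (ENNReal.toReal_eq_zero_iff _).1 h0 |>.resolve_right (measure_ne_top _ _)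
  have huniv : (Set.univ : Set (ℕ × ℝ)) = ⋃ M : ℕ, {y : ℕ × ℝ | y.1 < M} := by
    ext y
    simp only [Set.mem_univ, Set.mem_iUnion, true_iff]
    exact ⟨y.1 + 1, Nat.lt_succ_self _⟩
  have h1 : μ Set.univ = 0 := by
    rw [huniv]
    exact measure_iUnion_null hzero
  rw [measure_univ] at h1
  exact one_ne_zero h1

/-! ### membership in the classes -/

theorem inH_hh : InH hh := by
  have hmono : ∀ x y : ℝ, 1 ≤ x → x ≤ y → hh x ≤ hh y := by
    intro x y hx hxy
    unfold hh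
    have := Real.rpow_le_rpow (by linarith) hxy (show (0 : ℝ) ≤ 7 / 8 by norm_num)
    linarith
  have hone : hh 1 = 0 := by simp [hh]
  refine ⟨?_, hone, hmono, ?_, ?_, ?_, ?_⟩
  · intro x hx
    have := hmono 1 x le_rfl hx
    rw [hone] at this
    exact this
  · unfold hh
    exact tendsto_atTop_add_const_right _ _ (tendsto_rpow_atTop (by norm_num))
  · intro x y hx hxy
    obtain ⟨r, hr1, hxr, hhx, _⟩ := root8 x hx
    obtain ⟨t, ht1, hyt, hhy, _⟩ := root8 y (hx.trans hxy)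
    have hrt : r ≤ t := by
      rw [hxr, hyt] at hxy
      exact le_of_pow_le_pow_left₀ (by norm_num) (by linarith) hxy
    rw [hhx, hhy, hxr, hyt]
    have h1 : r ^ 7 ≤ t ^ 7 := pow_le_pow_left₀ (by linarith) hrt 7
    have h2 : r ^ 7 * (r - 1) ≤ t ^ 7 * (t - 1) :=
      mul_le_mul h1 (by linarith) (by linarith) (by positivity)
    nlinarith
  · -- x - h x = x^{7/8} (x^{1/8} - 1) + 1
    have h1 : Tendsto (fun x : ℝ => x ^ (1 / 8 : ℝ) - 1) atTop atTop :=
      tendsto_atTop_add_const_right _ _ (tendsto_rpow_atTop (by norm_num))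
    have h2 : Tendsto (fun x : ℝ => x ^ (7 / 8 : ℝ)) atTop atTop :=
      tendsto_rpow_atTop (by norm_num)
    have h3 := tendsto_atTop_add_const_right atTop (1 : ℝ) (h2.atTop_mul_atTop₀ h1)
    refine h3.congr' ?_
    filter_upwards [eventually_ge_atTop (1 : ℝ)] with x hx
    unfold hh
    have : x ^ (7 / 8 : ℝ) * x ^ (1 / 8 : ℝ) = x := by
      rw [← Real.rpow_add (by linarith)]
      norm_num
    rw [mul_sub, this]
    ring
  · have h1 : Tendsto (fun x : ℝ => x ^ (-(1 / 8) : ℝ)) atTop (𝓝 0) :=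
      tendsto_rpow_neg_atTop (by norm_num)
    have h2 : Tendsto (fun x : ℝ => 1 / x) atTop (𝓝 0) := by
      simpa using tendsto_inv_atTop_zero (𝕜 := ℝ)
    have h3 := h1.sub h2
    rw [sub_zero] at h3
    refine h3.congr' ?_
    filter_upwards [eventually_ge_atTop (1 : ℝ)] with x hx
    unfold hh
    have hx0 : 0 < x := by linarith
    rw [sub_div]
    congr 1
    rw [eq_div_iff hx0.ne']
    have e : x ^ (-(1 / 8) : ℝ) * x = x ^ (-(1 / 8) : ℝ) * x ^ (1 : ℝ) := by rw [Real.rpow_one]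
    rw [e, ← Real.rpow_add hx0]
    norm_num

theorem inE_ee : InE hh ee := by
  refine ⟨?_, ?_, ?_, ?_⟩
  · intro x hx
    obtain ⟨r, hr1, _, _, her⟩ := root8 x hx
    have : 0 < r := by linarith
    rw [her]; positivity
  · intro x hx
    obtain ⟨r, hr1, _, _, her⟩ := root8 x hx
    rw [her]
    apply one_div_le_one_div_of_le (by norm_num)
    nlinarith
  · unfold ee
    have h1 : Tendsto (fun x : ℝ => x ^ (-(1 / 4) : ℝ)) atTop (𝓝 0) :=
      tendsto_rpow_neg_atTop (by norm_num)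
    simpa using h1.div_const 2
  · -- h ε² = (x^{3/8} - x^{-1/2}) / 4
    have h1 : Tendsto (fun x : ℝ => x ^ (3 / 8 : ℝ) - 1) atTop atTop :=
      tendsto_atTop_add_const_right _ _ (tendsto_rpow_atTop (by norm_num))
    have h2 := h1.atTop_div_const (show (0 : ℝ) < 4 by norm_num)
    refine tendsto_atTop_mono' atTop ?_ h2
    filter_upwards [eventually_ge_atTop (1 : ℝ)] with x hx
    have hx0 : 0 < x := by linarith
    unfold hh ee
    have e1 : (x ^ (-(1 / 4) : ℝ) / 2) ^ 2 = x ^ (-(1 / 2) : ℝ) / 4 := by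
      rw [div_pow, ← Real.rpow_natCast, ← Real.rpow_mul hx0.le]
      norm_num
    rw [e1]
    have e2 : x ^ (7 / 8 : ℝ) * x ^ (-(1 / 2) : ℝ) = x ^ (3 / 8 : ℝ) := by
      rw [← Real.rpow_add hx0]
      norm_num
    have e3 : (x ^ (7 / 8 : ℝ) - 1) * (x ^ (-(1 / 2) : ℝ) / 4) =
        (x ^ (3 / 8 : ℝ) - x ^ (-(1 / 2) : ℝ)) / 4 := by
      rw [← e2]; ring
    rw [e3]
    have e4 : x ^ (-(1 / 2) : ℝ) ≤ 1 := Real.rpow_le_one_of_one_le_of_nonpos hx (by norm_num)
    linarith

/-- Q1 is false: there are `h ∈ H` and `ε ∈ E_h` such that for every `C > 0`, every positive input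
rate and every arrival law with this mean, the protocol is not stable; moreover, started with many
messages, the number of messages is large at all times with high probability. -/
theorem result : ∃ h ε : ℝ → ℝ, InH h ∧ InE h ε ∧ ∀ C : ℝ, 0 < C → ∀ lam : ℝ, 0 < lam →
    ∀ arr : PMF ℕ, (∑' k : ℕ, arr k * (k : ℝ≥0∞)) = ENNReal.ofReal lam →
      ¬ Stable C h ε arr ∧
      ∀ (M : ℕ) (S : ℝ), 1 ≤ S → ∀ η : ℝ, 0 < η → ∃ N1 : ℕ, ∀ N : ℕ, N1 ≤ N → ∀ n : ℕ,
        ((law C h ε arr n (N, S)).toMeasure {y | y.1 < M}).toReal ≤ η := by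
  refine ⟨hh, ee, inH_hh, inE_ee, fun C hC lam hlam arr hmean => ?_⟩
  have harr : arr 0 ≠ 1 := by
    intro h1
    have h2 : arr = PMF.pure 0 := by
      ext k
      by_cases hk : k = 0
      · subst hk
        simp [h1]
      · have h3 : arr k = 0 := by
          have := (PMF.apply_eq_one_iff arr 0).1 h1
          have h4 : k ∉ arr.support := by
            rw [this]
            simpa using hk
          simpa [PMF.mem_support_iff] using h4
        rw [h3]
        simp [PMF.pure_apply, hk]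
    rw [h2] at hmean
    have h5 : (∑' k : ℕ, (PMF.pure 0 : PMF ℕ) k * (k : ℝ≥0∞)) = 0 := by
      rw [ENNReal.tsum_eq_zero]
      intro k
      by_cases hk : k = 0
      · subst hk; simp
      · simp [PMF.pure_apply, hk]
    rw [h5] at hmean
    have := ENNReal.ofReal_pos.2 hlam
    rw [← hmean] at this
    exact lt_irrefl _ this
  exact ⟨not_stable C hC arr harr, fun M S hS η hη => stays_large C hC arr harr M S hS η hη⟩

end Pool.Agent.Results.MP_b612d4_pr.NoiseBeatsDrift
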